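import Pool.Agent.H.MP_034e58.A

set_option autoImplicit false
open Set Filter Topology TopologicalSpace Cardinal Function

namespace Pool.Agent.H.MP_3fab4a

theorem sel {ι α : Type} (O : ι → Set α) (h : ∀ i, #ι ≤ #(O i)) :
    ∃ f : ι → α, Injective f ∧ ∀ i, f i ∈ O i := by
  classical
  let I := (#ι).ord.ToType
  have hI : ∀ i : I, #(Iio i) < #ι := fun i => (mk_Iio_lt i (by simp [I])).trans_eq (by simp [I])
  obtain ⟨q⟩ : Nonempty (I ≃ ι) := Cardinal.eq.1 (by simp [I])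
  have H : ∀ (i : I) (s : Set (I × α)), ∃ x, x ∈ O (q i) ∧ (#s < #ι → x ∉ Prod.snd '' s) := fun i s => by
    by_cases hs : #s < #ι
    · by_contra! h1
      have h2 : O (q i) ⊆ Prod.snd '' s := fun x hx => (h1 x hx).2
      exact ((h _).trans ((mk_le_mk_of_subset h2).trans mk_image_le)).not_gt hs
    · have : #(O (q i)) ≠ 0 := ((zero_le.trans_lt (hI i)).trans_le (h _)).ne'
      obtain ⟨x⟩ := mk_ne_zero_iff.1 this
      exact ⟨x, x.2, fun h => absurd h hs⟩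
  choose g hg using H
  obtain ⟨f, hf⟩ := MP_034e58.trec g
  have h1 := fun i => hg i ((fun j => (j, f j)) '' Iio i)
  simp only [← hf] at h1
  have h2 : Injective f := Injective.of_lt_imp_ne fun i j h h' =>
    (h1 j).2 (mk_image_le.trans_lt (hI j)) ⟨_, ⟨i, h, rfl⟩, h'⟩
  refine ⟨f ∘ q.symm, h2.comp q.symm.injective, fun i => ?_⟩
  simpa using (h1 (q.symm i)).1

abbrev Om : Type := (ℵ₁ : Cardinal.{0}).ord.ToType

theorem mk_Om : #Om = ℵ₁ := by simp [Om]

theorem cntIio (a : Om) : (Iio a).Countable :=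
  (countable_iff_lt_aleph_one _).2 ((mk_Iio_lt a (by simp [Om])).trans_eq mk_Om)

theorem cntIic (a : Om) : (Iic a).Countable := by
  rw [← Iio_insert]; exact (cntIio a).insert a

theorem bdd {s : Set Om} (hs : s.Countable) : ∃ a, ∀ b ∈ s, b < a := by
  by_contra! h
  have h1 : (univ : Set Om) ⊆ ⋃ b ∈ s, Iic b := fun a _ => by
    obtain ⟨b, hb, hab⟩ := h a
    exact mem_biUnion hb hab
  have h2 := (countable_iff_lt_aleph_one _).1 ((hs.biUnion fun b _ => cntIic b).mono h1)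
  rw [mk_univ, mk_Om] at h2
  exact h2.false

/-- least strict upper bound -/
noncomputable def lub (s : Set Om) (hs : s.Countable) : Om :=
  wellFounded_lt.min {a | ∀ b ∈ s, b < a} (bdd hs)

theorem lub_le {s : Set Om} (hs : s.Countable) {a : Om} : lub s hs ≤ a ↔ ∀ b ∈ s, b < a :=
  ⟨fun h b hb => (wellFounded_lt.min_mem {a | ∀ b ∈ s, b < a} (bdd hs) b hb).trans_le h,
    fun h => not_lt.1 (wellFounded_lt.not_lt_min {a | ∀ b ∈ s, b < a} h)⟩

theorem clo (f : Om → Om) (a : Om) : ∃ α, a < α ∧ ∀ β < α, f β < α := by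
  have H : ∀ x : Om, ∃ y, x < y ∧ ∀ β ≤ x, f β < y := fun x => by
    obtain ⟨y, hy⟩ := bdd (((cntIic x).image f).insert x)
    exact ⟨y, hy x (Or.inl rfl), fun β hβ => hy _ (Or.inr ⟨β, hβ, rfl⟩)⟩
  choose g hg using H
  let u : ℕ → Om := fun n => g^[n] a
  have hu : ∀ n, u n < lub (range u) (countable_range u) := fun n =>
    (lub_le _).1 le_rfl _ ⟨n, rfl⟩
  refine ⟨lub (range u) (countable_range u), hu 0, fun β hβ => ?_⟩
  by_contra h
  refine hβ.not_ge ((lub_le _).2 ?_)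
  rintro _ ⟨n, rfl⟩
  by_contra! h1
  refine h (((hg (u n)).2 β h1).trans ?_)
  have := hu (n + 1)
  simpa only [u, iterate_succ_apply'] using this

def Stat (S : Set Om) : Prop := ∀ f : Om → Om, ∃ α ∈ S, (∃ β, β < α) ∧ ∀ β < α, f β < α

theorem bistat : ∃ S : Set Om, Stat S ∧ Stat Sᶜ := by
  by_contra! h
  obtain ⟨ι⟩ : Nonempty (Om ↪ (ℕ → Bool)) := by
    rw [← Cardinal.le_def, mk_Om]; simpa using aleph_one_le_continuum
  have H : ∀ n, ∃ (x : Bool) (f : Om → Om), ∀ α, (∃ β, β < α) → (∀ β < α, f β < α) → ι α n = x := by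
    intro n
    by_cases h1 : Stat {α | ι α n = true}
    · have h2 := h _ h1
      simp only [Stat, not_forall, not_exists, not_and] at h2
      obtain ⟨f, hf⟩ := h2
      refine ⟨true, f, fun α h3 h4 => by_contra fun h5 => ?_⟩
      obtain ⟨β, h6, h7⟩ := hf α h5 h3
      exact h7 (h4 β h6)
    · simp only [Stat, not_forall, not_exists, not_and] at h1
      obtain ⟨f, hf⟩ := h1
      refine ⟨false, f, fun α h3 h4 => by_contra fun h5 => ?_⟩
      obtain ⟨β, h6, h7⟩ := hf α (by simpa using h5) h3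
      exact h7 (h4 β h6)
  choose x f hf using H
  have H : ∀ β : Om, ∃ y, ∀ n, f n β < y := fun β => by
    obtain ⟨y, hy⟩ := bdd (countable_range fun n => f n β)
    exact ⟨y, fun n => hy _ ⟨n, rfl⟩⟩
  choose g hg using H
  obtain ⟨a, -⟩ := bdd countable_empty
  obtain ⟨α, h1, h2⟩ := clo g a
  obtain ⟨α', h3, h4⟩ := clo g α
  refine h3.ne (ι.injective (funext fun n => ?_))
  rw [hf n α ⟨a, h1⟩ fun β hβ => (hg β n).trans (h2 β hβ),
    hf n α' ⟨α, h3⟩ fun β hβ => (hg β n).trans (h4 β hβ)]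

def T : ℕ → Type
  | 0 => ℕ → Bool
  | n + 1 => T n → Bool

abbrev M : Type := Σ n, T n
abbrev G : Type := M ⊕ Om

@[ext] structure Y : Type where
  s : Set G
  cnt : s.Countable

noncomputable def θ (B : Y) : Om := lub (Sum.inr ⁻¹' B.s) (B.cnt.preimage Sum.inr_injective)

theorem θ_le {B : Y} {a : Om} : θ B ≤ a ↔ ∀ b, Sum.inr b ∈ B.s → b < a := lub_le _

theorem θ_mono {B C : Y} (h : B.s ⊆ C.s) : θ B ≤ θ C :=
  θ_le.2 fun b hb => θ_le.1 le_rfl b (h hb)

theorem c_le_M : 𝔠 ≤ #M := by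
  have : #(T 0) ≤ #M := mk_le_of_injective (f := Sigma.mk 0) sigma_mk_injective
  refine le_trans ?_ this
  change _ ≤ #(ℕ → Bool)
  simp

theorem a_le_M : ℵ₀ ≤ #M := aleph0_le_continuum.trans c_le_M

theorem O_le_M : #Om ≤ #M := mk_Om ▸ aleph_one_le_continuum.trans c_le_M

theorem mk_Y : #Y ≤ 2 ^ #M := by
  refine (mk_le_of_injective (f := Y.s) fun a b h => Y.ext h).trans ?_
  rw [mk_set, mk_sum, lift_id, lift_id, add_eq_left a_le_M O_le_M]

theorem mk_task : #(List (M × Om) → Y) ≤ 2 ^ #M := by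
  have : Infinite M := infinite_iff.2 a_le_M
  have : Nonempty Om := ⟨(bdd countable_empty).choose⟩
  rw [← power_def, mk_list_eq_mk, mk_prod, lift_id, lift_id, mul_eq_left a_le_M O_le_M (mk_ne_zero _)]
  refine (power_le_power_right mk_Y).trans_eq ?_
  rw [← power_mul, mul_eq_self a_le_M]

theorem mk_br : #(∀ n, T (n + 1)) = 2 ^ #M := by
  have : #(M → Bool) = #(∀ n, T (n + 1)) := Cardinal.eq.2 ⟨Equiv.piCurry fun _ _ => Bool⟩
  rw [← this]; simp

def Good (S : Set Om) (B : Y) (l : ℕ → Y) : Prop :=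
  θ B ∈ S ∧ (∀ m n, m ≤ n → (l m).s ⊆ (l n).s) ∧ B.s = ⋃ n, (l n).s ∧ ∀ n, θ (l n) < θ B

def z (x : ∀ n, T (n + 1)) : List Om → List (M × Om)
  | [] => []
  | β :: t => (⟨t.length + 1, x t.length⟩, β) :: z x t

theorem z_len (x : ∀ n, T (n + 1)) (t : List Om) : (z x t).length = t.length := by
  induction t with
  | nil => rfl
  | cons β t ih => simp [z, ih]

def tr (β : ℕ → Om) : ℕ → List Om
  | 0 => []
  | n + 1 => β n :: tr β n

theorem tr_len (β : ℕ → Om) (n : ℕ) : (tr β n).length = n := by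
  induction n with
  | zero => rfl
  | succ n ih => simp [tr, ih]

theorem tr_mem (β : ℕ → Om) (n : ℕ) : ∀ a ∈ tr β n, ∃ i < n, β i = a := by
  induction n with
  | zero => simp [tr]
  | succ n ih =>
    intro a ha
    rcases List.mem_cons.1 ha with rfl | ha
    · exact ⟨n, n.lt_succ_self, rfl⟩
    · obtain ⟨i, hi, h⟩ := ih a ha
      exact ⟨i, hi.trans n.lt_succ_self, h⟩

def bb (g : Y → ℕ → Y) : List (M × Om) → Y
  | [] => g ⟨∅, countable_empty⟩ 0
  | p :: t => g ⟨insert (Sum.inl p.1) (insert (Sum.inr p.2) (bb g t).s),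
      ((bb g t).cnt.insert _).insert _⟩ (t.length + 1)

theorem branch {S : Set Om} (hS : Stat S) (g : Y → ℕ → Y) (hg : ∀ b n, b.s ⊆ (g b n).s)
    (x : ∀ n, T (n + 1)) : ∃ B l, Good S B l ∧ (∀ n, ∃ t, t.length = n ∧ l n = bb g t) ∧
      ∀ n, Sum.inl ⟨n + 1, x n⟩ ∈ B.s := by
  have H : ∀ ξ : Om, ∃ y, ∀ t : List Om, (∀ a ∈ t, a ≤ ξ) → θ (bb g (z x t)) < y := fun ξ => by
    have := (cntIic ξ).to_subtype
    obtain ⟨y, hy⟩ := bdd (countable_range fun t : List (Iic ξ) => θ (bb g (z x (t.map Subtype.val))))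
    refine ⟨y, fun t ht => hy _ ⟨t.pmap (fun a (h : a ≤ ξ) => ⟨a, h⟩) ht, ?_⟩⟩
    simp [List.map_pmap]
  choose F hF using H
  obtain ⟨α, h1, h2, h3⟩ := hS F
  obtain ⟨β, hβ⟩ := (cntIio α).exists_eq_range h2
  have hb : ∀ n, β n < α := fun n => (hβ ▸ mem_range_self n : β n ∈ Iio α)
  let l : ℕ → Y := fun n => bb g (z x (tr β n))
  have hl : ∀ n, insert (Sum.inl ⟨n + 1, x n⟩) (insert (Sum.inr (β n)) (l n).s) ⊆ (l (n + 1)).s := by
    intro n
    have := hg ⟨insert (Sum.inl ⟨(tr β n).length + 1, x (tr β n).length⟩) (insert (Sum.inr (β n)) (l n).s),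
      ((l n).cnt.insert _).insert _⟩ ((z x (tr β n)).length + 1)
    refine subset_trans ?_ this
    rw [tr_len]
  have h4 : ∀ n, θ (l n) < α := fun n => by
    obtain ⟨i, hi, h5⟩ := (Finset.range (n + 1)).exists_max_image β ⟨0, by simp⟩
    refine (hF (β i) _ fun a ha => ?_).trans (h3 _ (hb i))
    obtain ⟨j, hj, rfl⟩ := tr_mem β n a ha
    exact h5 j (by simp; omega)
  let B : Y := ⟨⋃ n, (l n).s, countable_iUnion fun n => (l n).cnt⟩
  have h5 : θ B = α := by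
    refine le_antisymm (θ_le.2 fun b hb => ?_) (le_of_forall_lt fun b hb => ?_)
    · obtain ⟨n, hn⟩ := mem_iUnion.1 hb
      exact (θ_le.1 le_rfl b hn).trans (h4 n)
    · obtain ⟨n, rfl⟩ : b ∈ range β := hβ ▸ hb
      exact θ_le.1 le_rfl _ (mem_iUnion.2 ⟨n + 1, hl n (Or.inr (Or.inl rfl))⟩)
  refine ⟨B, l, ⟨h5 ▸ h1, fun m n h => ?_, rfl, fun n => h5 ▸ h4 n⟩,
    fun n => ⟨_, (z_len _ _).trans (tr_len _ _), rfl⟩,
    fun n => mem_iUnion.2 ⟨n + 1, hl n (Or.inl rfl)⟩⟩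
  exact monotone_nat_of_le_succ (f := fun n => (l n).s)
    (fun n _ h => hl n (Or.inr (Or.inr h))) h

theorem guess : ∃ (S : Set Om) (Lad : Y → (ℕ → Y) → Prop), Stat Sᶜ ∧
    (∀ B l l', Lad B l → Lad B l' → l = l') ∧ (∀ B l, Lad B l → Good S B l) ∧
    ∀ E : ℕ → Set Y, (∀ n (b : Y), ∃ e ∈ E n, b.s ⊆ e.s) → ∃ B l, Lad B l ∧ ∀ n, l n ∈ E n := by
  obtain ⟨S, hS, hS'⟩ := bistat
  let O : (List (M × Om) → Y) → Set Y := fun τ =>
    {B | ∃ l, Good S B l ∧ ∀ n, ∃ t, t.length = n ∧ l n = τ t}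
  obtain ⟨f, hf, hO⟩ := sel (ι := {τ // 2 ^ #M ≤ #(O τ)}) (fun τ => O τ.1)
    fun τ => ((mk_subtype_le _).trans mk_task).trans τ.2
  choose l hl using hO
  refine ⟨S, fun B l' => ∃ τ, f τ = B ∧ l τ = l', hS', ?_, ?_, fun E hE => ?_⟩
  · rintro _ _ _ ⟨τ, rfl, rfl⟩ ⟨τ', h, rfl⟩
    rw [hf h]
  · rintro _ _ ⟨τ, rfl, rfl⟩
    exact (hl τ).1
  choose g hg using hE
  choose B l' h1 h2 h3 using branch hS (fun b n => g n b) fun b n => (hg n b).2
  choose c hc using fun B : Y => countable_iff_exists_injOn.1 B.cnt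
  have h4 : 2 ^ #M ≤ #(O (bb fun b n => g n b)) := by
    by_contra! h
    have h5 : Injective fun x => ((⟨B x, l' x, h1 x, h2 x⟩, fun n => c (B x) (Sum.inl ⟨n + 1, x n⟩)) :
        O (bb fun b n => g n b) × (ℕ → ℕ)) := fun x y hxy => by
      have h6 : B x = B y := congrArg (fun p => p.1.1) hxy
      funext n
      have h7 : c (B x) _ = c (B y) _ := congrArg (fun p => p.2 n) hxy
      rw [← h6] at h7
      have := hc _ (h3 x n) (h6 ▸ h3 y n) h7
      simpa using this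
    have h6 := mk_le_of_injective h5
    rw [mk_br, mk_prod, lift_id, lift_id] at h6
    refine h6.not_gt (mul_lt_of_lt (a_le_M.trans (cantor _).le) h ?_)
    simpa using c_le_M.trans_lt (cantor _)
  refine ⟨_, _, ⟨⟨_, h4⟩, rfl, rfl⟩, fun n => ?_⟩
  obtain ⟨t, rfl, h⟩ := (hl ⟨_, h4⟩).2 n
  rw [h]
  cases t with
  | nil => exact (hg _ _).1
  | cons p t => exact (hg _ _).1

end Pool.Agent.H.MP_3fab4a
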