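import Pool.Agent.H.MP_3fab4a.A

set_option autoImplicit false
open Set Filter Topology TopologicalSpace Function

namespace Pool.Agent.H.MP_3fab4a

noncomputable def S0 : Set Om := guess.choose
noncomputable def Lad : Y → (ℕ → Y) → Prop := guess.choose_spec.choose
theorem hS0 : Stat S0ᶜ := guess.choose_spec.choose_spec.1
theorem Lad_fun {B : Y} {l l' : ℕ → Y} : Lad B l → Lad B l' → l = l' :=
  guess.choose_spec.choose_spec.2.1 B l l'
theorem Lad_good {B : Y} {l : ℕ → Y} : Lad B l → Good S0 B l :=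
  guess.choose_spec.choose_spec.2.2.1 B l
theorem Lad_guess (E : ℕ → Set Y) : (∀ n (b : Y), ∃ e ∈ E n, b.s ⊆ e.s) →
    ∃ B l, Lad B l ∧ ∀ n, l n ∈ E n := guess.choose_spec.choose_spec.2.2.2 E

noncomputable def cc (B : Y) : G → ℕ := (countable_iff_exists_injOn.1 B.cnt).choose
def fs (B : Y) (n : ℕ) : Set G := {γ ∈ B.s | cc B γ < n}

theorem fs_fin (B : Y) (n : ℕ) : (fs B n).Finite :=
  Finite.of_finite_image (f := cc B) ((finite_Iio n).subset (by rintro _ ⟨γ, h, rfl⟩; exact h.2))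
    ((countable_iff_exists_injOn.1 B.cnt).choose_spec.mono fun _ h => h.1)

theorem fs_sub (B : Y) (n : ℕ) : fs B n ⊆ B.s := fun _ h => h.1

theorem fs_mono (B : Y) {m n : ℕ} (h : m ≤ n) : fs B m ⊆ fs B n := fun _ h' => ⟨h'.1, h'.2.trans_le h⟩

theorem fs_ev {B : Y} {s : Set G} (hs : s.Finite) (h : s ⊆ B.s) : ∀ᶠ n in atTop, s ⊆ fs B n :=
  (eventually_all_finite hs).2 fun γ hγ => (eventually_gt_atTop (cc B γ)).mono fun _ h' => ⟨h hγ, h'⟩

theorem Lad_sub {B : Y} {l : ℕ → Y} (h : Lad B l) (n : ℕ) : (l n).s ⊆ B.s := by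
  rw [(Lad_good h).2.2.1]; exact subset_iUnion (fun n => (l n).s) n

theorem Lad_ev {B : Y} {l : ℕ → Y} (hl : Lad B l) {s : Set G} (hs : s.Finite) (h : s ⊆ B.s) :
    ∀ᶠ n in atTop, s ⊆ (l n).s :=
  (eventually_all_finite hs).2 fun γ hγ => by
    have := h hγ
    rw [(Lad_good hl).2.2.1] at this
    obtain ⟨m, hm⟩ := mem_iUnion.1 this
    exact (eventually_ge_atTop m).mono fun n hn => (Lad_good hl).2.1 m n hn hm

inductive In : Y → Y → Prop
  | refl (B : Y) : In B B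
  | step (B : Y) (l : ℕ → Y) (n : ℕ) (C : Y) :
      Lad B l → In (l n) C → (l n).s ∩ fs B n ⊆ C.s → In B C

theorem In.sub {B C : Y} (h : In B C) : C.s ⊆ B.s := by
  induction h with
  | refl => exact subset_rfl
  | step B l n C h _ _ ih => exact ih.trans (Lad_sub h n)

theorem In.lt {B C : Y} (h : In B C) : C = B ∨ (θ C < θ B ∧ θ B ∈ S0) := by
  cases h with
  | refl => exact Or.inl rfl
  | step _ l n _ h h1 _ =>
    exact Or.inr ⟨(θ_mono h1.sub).trans_lt ((Lad_good h).2.2.2 n), (Lad_good h).1⟩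

instance : TopologicalSpace Y where
  IsOpen U := ∀ B ∈ U, ∃ s : Set G, s.Finite ∧ s ⊆ B.s ∧ ∀ C, In B C → s ⊆ C.s → C ∈ U
  isOpen_univ := fun _ _ => ⟨∅, finite_empty, empty_subset _, fun _ _ _ => trivial⟩
  isOpen_inter := fun _ _ hU hV B hB => by
    obtain ⟨s, h1, h2, h3⟩ := hU B hB.1
    obtain ⟨t, h4, h5, h6⟩ := hV B hB.2
    exact ⟨s ∪ t, h1.union h4, union_subset h2 h5, fun C h h' =>
      ⟨h3 C h (subset_union_left.trans h'), h6 C h (subset_union_right.trans h')⟩⟩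
  isOpen_sUnion := fun _ h B ⟨U, hU, hB⟩ => by
    obtain ⟨s, h1, h2, h3⟩ := h U hU B hB
    exact ⟨s, h1, h2, fun C h4 h5 => ⟨U, hU, h3 C h4 h5⟩⟩

theorem isOpen_iff {U : Set Y} : IsOpen U ↔
    ∀ B ∈ U, ∃ s : Set G, s.Finite ∧ s ⊆ B.s ∧ ∀ C, In B C → s ⊆ C.s → C ∈ U := Iff.rfl

theorem clopen_cone {s : Set G} (hs : s.Finite) : IsClopen {C : Y | s ⊆ C.s} :=
  ⟨⟨isOpen_iff.2 fun _ hB => ⟨∅, finite_empty, empty_subset _, fun _ h _ h' => hB (h'.trans h.sub)⟩⟩,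
    isOpen_iff.2 fun _ hB => ⟨s, hs, hB, fun _ _ h => h⟩⟩

theorem closed_cone (s : Set G) : IsClosed {C : Y | s ⊆ C.s} :=
  ⟨isOpen_iff.2 fun _ hB => ⟨∅, finite_empty, empty_subset _, fun _ h _ h' => hB (h'.trans h.sub)⟩⟩

theorem clopen_pt (γ : G) : IsClopen {C : Y | γ ∈ C.s} := by
  simpa using clopen_cone (finite_singleton γ)

theorem open_In (B : Y) : IsOpen {C | In B C} := isOpen_iff.2 fun C hC => by
  induction hC with
  | refl => exact ⟨∅, finite_empty, empty_subset _, fun _ h _ => h⟩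
  | step B l n C h _ h2 ih =>
    obtain ⟨s, h3, h4, h5⟩ := ih
    exact ⟨s ∪ (l n).s ∩ fs B n, h3.union ((fs_fin B n).inter_of_right _), union_subset h4 h2,
      fun D h6 h7 => In.step B l n D h (h5 D h6 (subset_union_left.trans h7))
        (subset_union_right.trans h7)⟩

theorem In_nhds (B : Y) : {C | In B C} ∈ 𝓝 B := (open_In B).mem_nhds (In.refl B)

theorem nhds_ev {B : Y} {U : Set Y} (h : U ∈ 𝓝 B) :
    ∀ᶠ n in atTop, ∀ C, In B C → fs B n ⊆ C.s → C ∈ U := by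
  obtain ⟨V, h1, h2, h3⟩ := mem_nhds_iff.1 h
  obtain ⟨s, h4, h5, h6⟩ := isOpen_iff.1 h2 B h3
  exact (fs_ev h4 h5).mono fun n hn C h7 h8 => h1 (h6 C h7 (hn.trans h8))

theorem Lad_tendsto {B : Y} {l : ℕ → Y} (hl : Lad B l) : Tendsto l atTop (𝓝 B) := fun U hU => by
  obtain ⟨n, hn⟩ := (nhds_ev hU).exists
  exact (Lad_ev hl (fs_fin B n) (fs_sub B n)).mono fun m hm =>
    hn _ (In.step B l m _ hl (In.refl _) inter_subset_left) hm

theorem sep_pt {B C : Y} (h : B ≠ C) : ∃ U, IsClopen U ∧ B ∈ U ∧ C ∉ U := by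
  by_contra! h1
  refine h (Y.ext (Set.ext fun γ => ⟨h1 _ (clopen_pt γ), fun h2 => ?_⟩))
  by_contra h3
  exact h1 _ (clopen_pt γ).compl h3 h2

instance : T2Space Y := ⟨fun _ _ h => by
  obtain ⟨U, h1, h2, h3⟩ := sep_pt h
  exact ⟨U, Uᶜ, h1.2, h1.compl.2, h2, h3, disjoint_compl_right⟩⟩

theorem compact_In (B : Y) : IsCompact {C | In B C} := by
  induction h : θ B using WellFoundedLT.induction generalizing B with
  | ind α ih =>
  subst h
  by_cases hl : ∃ l, Lad B l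
  · obtain ⟨l, hl⟩ := hl
    refine isCompact_iff_ultrafilter_le_nhds'.2 fun F hF => ?_
    by_cases h : ∀ n, {C : Y | fs B n ⊆ C.s} ∈ F
    · refine ⟨B, In.refl B, fun U hU => ?_⟩
      obtain ⟨n, hn⟩ := (nhds_ev hU).exists
      exact mem_of_superset (inter_mem hF (h n)) fun C hC => hn C hC.1 hC.2
    · push Not at h
      obtain ⟨n, hn⟩ := h
      obtain ⟨N, hN⟩ := eventually_atTop.1
        ((Lad_ev hl (fs_fin B n) (fs_sub B n)).and (eventually_ge_atTop n))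
      have h1 : IsCompact (⋃ m ∈ Iio N, {C | In (l m) C} ∩ {C | (l m).s ∩ fs B m ⊆ C.s}) :=
        (finite_Iio N).isCompact_biUnion fun m _ =>
          (ih _ ((Lad_good hl).2.2.2 m) _ rfl).inter_right (closed_cone _)
      obtain ⟨C, h2, h3⟩ := isCompact_iff_ultrafilter_le_nhds'.1 h1 F
        (mem_of_superset (inter_mem hF (Ultrafilter.compl_mem_iff_notMem.2 hn)) (by
          rintro C ⟨h4, h5⟩
          cases h4 with
          | refl => exact absurd (fs_sub B n) h5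
          | step _ l' m _ h6 h7 h8 =>
            cases Lad_fun hl h6
            refine mem_biUnion (mem_Iio.2 (not_le.1 fun h9 => h5 (subset_trans ?_ h8))) ⟨h7, h8⟩
            exact subset_inter (hN m h9).1 (fs_mono B (hN m h9).2)))
      obtain ⟨m, -, h4, h5⟩ := mem_iUnion₂.1 h2
      exact ⟨C, In.step B l m C hl h4 h5, h3⟩
  · refine ((finite_singleton B).subset fun C hC => ?_).isCompact
    cases hC with
    | refl => rfl
    | step _ l _ _ h => exact absurd ⟨l, h⟩ hl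

theorem clopen_In (B : Y) : IsClopen {C | In B C} := ⟨(compact_In B).isClosed, open_In B⟩

instance : WeaklyLocallyCompactSpace Y := ⟨fun B => ⟨_, compact_In B, In_nhds B⟩⟩

def CC (K : Set Y) : Prop := ∀ d : ℕ → Y, (∀ k, d k ∈ K) → ∃ C, MapClusterPt C atTop d

theorem closed_θ (α : Om) : IsClosed {C : Y | θ C ≤ α} := by
  have : {C : Y | θ C ≤ α} = ⋂ b ∈ Ici α, {C : Y | Sum.inr b ∈ C.s}ᶜ := by
    ext C
    simp only [mem_ofPred, θ_le, mem_iInter, mem_Ici, mem_compl_iff]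
    exact ⟨fun h b h1 h2 => (h b h2).not_ge h1, fun h b h1 => not_le.1 fun h2 => h b h2 h1⟩
  rw [this]
  exact isClosed_biInter fun b _ => (clopen_pt _).compl.1

theorem cof {K : Set Y} (hK : IsClosed K) (hc : CC K) {α : Om} (h0 : ∃ β, β < α)
    (h : ∀ β < α, ∃ C ∈ K, β < θ C ∧ θ C < α) : ∃ C ∈ K, θ C = α ∧ α ∈ S0 := by
  obtain ⟨β, hβ⟩ := (cntIio α).exists_eq_range h0
  have hb : ∀ n, β n < α := fun n => (hβ ▸ mem_range_self n : β n ∈ Iio α)
  have H : ∀ n, ∃ C ∈ K, (∀ i ≤ n, β i < θ C) ∧ θ C < α := fun n => by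
    obtain ⟨i, -, h5⟩ := (Finset.range (n + 1)).exists_max_image β ⟨0, by simp⟩
    obtain ⟨C, h1, h2, h3⟩ := h _ (hb i)
    exact ⟨C, h1, fun j hj => (h5 j (by simp; omega)).trans_lt h2, h3⟩
  choose d h1 h2 h3 using H
  obtain ⟨C, hC⟩ := hc d h1
  have h4 : θ C ≤ α := (closed_θ α).mem_of_mapClusterPt hC (Eventually.of_forall fun n => (h3 n).le)
  have h5 := mapClusterPt_iff_frequently.1 hC _ (In_nhds C)
  have h6 : θ C = α := h4.eq_or_lt.resolve_right fun h6 => by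
    obtain ⟨m, hm⟩ : θ C ∈ range β := hβ ▸ h6
    obtain ⟨n, h7, h8⟩ := (h5.and_eventually (eventually_ge_atTop m)).exists
    exact (hm ▸ h2 n m h8 : θ C < θ (d n)).not_ge (θ_mono h7.sub)
  refine ⟨C, hK.mem_of_mapClusterPt hC (Eventually.of_forall h1), h6, ?_⟩
  obtain ⟨n, hn⟩ := h5.exists
  rcases hn.lt with h7 | h7
  · exact absurd (h7 ▸ h6 : θ (d n) = α) (h3 n).ne
  · exact h6 ▸ h7.2

theorem cc_bdd (α : Om) : ∀ K : Set Y, IsClosed K → CC K → (∀ C ∈ K, θ C < α) → IsCompact K := by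
  induction α using WellFoundedLT.induction with
  | ind α ih =>
  intro K hK hc hα
  rcases K.eq_empty_or_nonempty with rfl | ⟨C₀, hC₀⟩
  · exact isCompact_empty
  by_cases h : ∀ β < α, ∃ C ∈ K, β < θ C
  · obtain ⟨C, h1, h2, -⟩ := cof hK hc ⟨_, hα _ hC₀⟩ fun β hβ =>
      (h β hβ).imp fun C h => ⟨h.1, h.2, hα C h.1⟩
    exact absurd h2 (hα C h1).ne
  push Not at h
  obtain ⟨β, h1, h2⟩ := h
  have h3 : {C ∈ K | θ C = β}.Finite := by
    by_contra h3
    let e := Set.Infinite.natEmbedding _ h3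
    obtain ⟨C, hC⟩ := hc (fun n => (e n).1) fun n => (e n).2.1
    have h4 := h2 C (hK.mem_of_mapClusterPt hC (Eventually.of_forall fun n => (e n).2.1))
    have h5 := (mapClusterPt_iff_frequently.1 hC _ (In_nhds C)).mono fun n (hn : In C (e n).1) =>
      hn.lt.resolve_right fun h => (h.1.trans_le h4).ne (e n).2.2
    refine Nat.frequently_atTop_iff_infinite.1 h5 (Set.Subsingleton.finite fun m hm n hn => ?_)
    exact e.injective (Subtype.ext (Eq.trans hm (Eq.symm hn)))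
  have h4 := ih β h1 (K \ ⋃ C ∈ {C ∈ K | θ C = β}, {D | In C D})
    (hK.sdiff (isOpen_biUnion fun C _ => open_In C)) (fun d hd => hc d fun k => (hd k).1)
    fun C hC => (h2 C hC.1).lt_of_ne fun h => hC.2 (mem_biUnion ⟨hC.1, h⟩ (In.refl C))
  exact (h4.union (h3.isCompact_biUnion fun C _ => compact_In C)).of_isClosed_subset hK
    (subset_sdiff_union _ _)

theorem cc_compact {K : Set Y} (hK : IsClosed K) (hc : CC K) : IsCompact K := by
  by_cases h : ∀ β, ∃ C ∈ K, β < θ C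
  · choose f h1 h2 using h
    obtain ⟨α, h3, h4, h5⟩ := hS0 fun β => θ (f β)
    obtain ⟨_, -, -, h6⟩ := cof hK hc h4 fun β hβ => ⟨_, h1 β, h2 β, h5 β hβ⟩
    exact absurd h6 h3
  · push Not at h
    obtain ⟨β, h⟩ := h
    obtain ⟨α, hα⟩ := bdd (countable_singleton β)
    exact cc_bdd α K hK hc fun C hC => (h C hC).trans_lt (hα β rfl)

theorem ptw (d : ℕ → Y) : ∃ (φ : ℕ → ℕ) (B : Y), StrictMono φ ∧
    ∀ γ, ∀ᶠ k in atTop, γ ∈ (d (φ k)).s ↔ γ ∈ B.s := by
  classical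
  have hA : (⋃ k, (d k).s).Countable := countable_iUnion fun k => (d k).cnt
  have := hA.to_subtype
  obtain ⟨χ, -, φ, h1, h2⟩ := (isCompact_univ (X := (⋃ k, (d k).s) → Bool)).tendsto_subseq
    (x := fun k γ => decide (γ.1 ∈ (d k).s)) fun _ => trivial
  refine ⟨φ, ⟨{γ | ∃ h : γ ∈ ⋃ k, (d k).s, χ ⟨γ, h⟩ = true}, hA.mono fun _ h => h.1⟩, h1, fun γ => ?_⟩
  by_cases h : γ ∈ ⋃ k, (d k).s
  · have h3 := tendsto_pi_nhds.1 h2 ⟨γ, h⟩
    rw [nhds_discrete, tendsto_pure] at h3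
    refine h3.mono fun k hk => ?_
    simp only [mem_ofPred, h, exists_true_left, ← hk]
    simp
  · exact Eventually.of_forall fun k => ⟨fun h' => absurd (mem_iUnion.2 ⟨φ k, h'⟩) h, fun h' => absurd h'.1 h⟩

theorem lemW (d : ℕ → Y) (hd : ∀ C, ¬ MapClusterPt C atTop d) : ∃ (φ : ℕ → ℕ) (U : ℕ → Set Y),
    (∀ k, IsOpen (U k) ∧ IsCompact (U k) ∧ d (φ k) ∈ U k) ∧
      ∀ C, ∃ W ∈ 𝓝 C, ∀ᶠ k in atTop, Disjoint W (U k) := by
  obtain ⟨φ, B, h1, h2⟩ := ptw d
  have h3 : ∀ᶠ k in atTop, ¬ In B (d k) := by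
    refine (compact_In B).induction_on (p := fun s => ∀ᶠ k in atTop, d k ∉ s) (by simp)
      (fun s t h h' => h'.mono fun k hk h'' => hk (h h''))
      (fun s t h h' => (h.and h').mono fun k hk h'' => h''.elim hk.1 hk.2) fun C _ => ?_
    have := hd C
    rw [mapClusterPt_iff_frequently] at this
    push Not at this
    obtain ⟨s, h4, h5⟩ := this
    exact ⟨s, nhdsWithin_le_nhds h4, h5⟩
  obtain ⟨N, hN⟩ := eventually_atTop.1 (h1.tendsto_atTop.eventually h3)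
  refine ⟨fun k => φ (k + N), fun k => ({C | In (d (φ (k + N))) C} ∩
    {C | (d (φ (k + N))).s ∩ fs B k ⊆ C.s}) \ {C | In B C}, fun k => ⟨?_, ?_, ?_⟩, fun C => ?_⟩
  · exact ((open_In _).inter (clopen_cone ((fs_fin B k).inter_of_right _)).2).sdiff (clopen_In B).1
  · exact ((compact_In _).inter_right (closed_cone _)).diff (open_In B)
  · exact ⟨⟨In.refl _, inter_subset_left⟩, hN _ (Nat.le_add_left _ _)⟩
  by_cases h : C = B
  · exact ⟨_, h ▸ In_nhds B, Eventually.of_forall fun k => disjoint_sdiff_right⟩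
  obtain ⟨γ, hγ⟩ : ∃ γ, ¬ (γ ∈ C.s ↔ γ ∈ B.s) := not_forall.1 fun h' => h (Y.ext (Set.ext h'))
  have h4 := (tendsto_add_atTop_nat N).eventually (h2 γ)
  by_cases h5 : γ ∈ C.s
  · refine ⟨_, (clopen_pt γ).2.mem_nhds h5, h4.mono fun k hk => disjoint_left.2 fun D h6 h7 => ?_⟩
    exact hγ (iff_of_true h5 (hk.1 (h7.1.1.sub h6)))
  · have h6 : γ ∈ B.s := by_contra fun h6 => hγ (iff_of_false h5 h6)
    refine ⟨_, (clopen_pt γ).compl.2.mem_nhds h5, (h4.and (fs_ev (finite_singleton γ)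
      (singleton_subset_iff.2 h6))).mono fun k hk => disjoint_left.2 fun D h7 h8 => ?_⟩
    exact h7 (h8.1.2 ⟨hk.1.2 h6, hk.2 rfl⟩)

open OnePoint in
theorem key {A : Set (OnePoint Y)} {p : OnePoint Y} (h1 : p ∈ closure A) (h2 : p ∉ A) :
    ∃ (V : ℕ → Set (OnePoint Y)) (a : ℕ → OnePoint Y),
      (∀ k, IsClopen (V k) ∧ p ∉ V k ∧ a k ∈ A ∧ a k ∈ V k) ∧ ∀ W ∈ 𝓝 p, ∀ᶠ k in atTop, V k ⊆ W := by
  have hco : ∀ U : Set Y, IsOpen U → IsCompact U → IsClopen ((↑) '' U : Set (OnePoint Y)) :=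
    fun U h h' => ⟨(h'.image continuous_coe).isClosed, isOpenMap_coe U h⟩
  induction p with
  | infty =>
    have h3 : ¬ CC (closure ((↑) ⁻¹' A : Set Y)) := fun h => by
      have h4 := ((cc_compact isClosed_closure h).image continuous_coe).isClosed
      refine infty_notMem_image_coe (closure_minimal (fun x hx => ?_) h4 h1)
      induction x with
      | infty => exact absurd hx h2
      | coe x => exact ⟨x, subset_closure hx, rfl⟩
    simp only [CC, not_forall, not_exists] at h3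
    obtain ⟨d, h3, h4⟩ := h3
    obtain ⟨φ, U, h5, h6⟩ := lemW d h4
    choose a ha using fun k => mem_closure_iff.1 (h3 (φ k)) _ (h5 k).1 (h5 k).2.2
    refine ⟨fun k => (↑) '' U k, fun k => a k, fun k => ⟨hco _ (h5 k).1 (h5 k).2.1,
      infty_notMem_image_coe, (ha k).2, _, (ha k).1, rfl⟩, fun W hW => ?_⟩
    obtain ⟨K, ⟨-, hK⟩, h7⟩ := hasBasis_nhds_infty.mem_iff.1 hW
    have h8 : ∀ᶠ k in atTop, Disjoint K (U k) := by
      refine hK.induction_on (p := fun s => ∀ᶠ k in atTop, Disjoint s (U k)) (by simp)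
        (fun s t h h' => h'.mono fun k hk => hk.mono_left h)
        (fun s t h h' => (h.and h').mono fun k hk => disjoint_union_left.2 hk) fun C _ => ?_
      obtain ⟨s, h9, h10⟩ := h6 C
      exact ⟨s, nhdsWithin_le_nhds h9, h10⟩
    exact h8.mono fun k hk => (image_mono hk.subset_compl_left).trans (subset_union_left.trans h7)
  | coe B =>
    have H : ∀ k, ∃ (U : Set Y) (a : Y), IsOpen U ∧ IsCompact U ∧ B ∉ U ∧ ↑a ∈ A ∧ a ∈ U ∧
        ∀ C ∈ U, In B C ∧ fs B k ⊆ C.s := fun k => by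
      have h3 := (open_In B).inter (clopen_cone (fs_fin B k)).2
      obtain ⟨_, ⟨a, h4, rfl⟩, h5⟩ := mem_closure_iff.1 h1 _ (isOpenMap_coe _ h3)
        ⟨B, ⟨In.refl B, fs_sub B k⟩, rfl⟩
      obtain ⟨U, h6, h7, h8⟩ := sep_pt (B := a) (C := B) fun h => h2 (h ▸ h5)
      exact ⟨_ ∩ U, a, h3.inter h6.2, ((compact_In B).inter_right (closed_cone _)).inter_right h6.1,
        fun h => h8 h.2, h5, ⟨h4, h7⟩, fun C h => h.1⟩
    choose U a h3 h4 h5 h6 h7 h8 using H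
    refine ⟨fun k => (↑) '' U k, fun k => a k, fun k => ⟨hco _ (h3 k) (h4 k), ?_, h6 k, _, h7 k, rfl⟩,
      fun W hW => ?_⟩
    · rintro ⟨C, h, h'⟩
      exact h5 k (coe_injective h' ▸ h)
    · refine (nhds_ev (continuous_coe.continuousAt.preimage_mem_nhds hW)).mono fun k hk => ?_
      rintro _ ⟨C, h, rfl⟩
      exact hk C (h8 k C h).1 (h8 k C h).2

theorem not_all (B : Y) : ∃ γ, γ ∉ B.s := by
  obtain ⟨a, ha⟩ := bdd (countable_singleton (θ B))
  exact ⟨Sum.inr a, fun h => (θ_le.1 le_rfl a h).not_gt (ha _ rfl)⟩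

end Pool.Agent.H.MP_3fab4a
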