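import Pool.Agent.H.MP_3fab4a.B

set_option autoImplicit false
open Set Filter Topology TopologicalSpace Function

namespace Pool.Agent.H.MP_3fab4a

def Key (X : Type) [TopologicalSpace X] : Prop :=
  ∀ (A : Set X) (p : X), p ∈ closure A → p ∉ A → ∃ (V : ℕ → Set X) (a : ℕ → X),
    (∀ k, IsClopen (V k) ∧ p ∉ V k ∧ a k ∈ A ∧ a k ∈ V k) ∧ ∀ W ∈ 𝓝 p, ∀ᶠ k in atTop, V k ⊆ W

section
variable {X : Type} [TopologicalSpace X]

theorem away [T2Space X] {V : ℕ → Set X} {p q : X} (h : ∀ W ∈ 𝓝 p, ∀ᶠ k in atTop, V k ⊆ W)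
    (hq : q ≠ p) : ∃ N ∈ 𝓝 q, {k | (V k ∩ N).Nonempty}.Finite := by
  obtain ⟨N, W, h1, h2, h3, h4, h5⟩ := t2_separation hq
  obtain ⟨n, hn⟩ := eventually_atTop.1 (h W (h2.mem_nhds h4))
  refine ⟨N, h1.mem_nhds h3, (finite_Iio n).subset fun k ⟨x, h6, h7⟩ => mem_Iio.2 (not_le.1 fun h8 => ?_)⟩
  exact disjoint_left.1 h5 h7 (hn k h8 h6)

theorem Key.frechet (h : Key X) : FrechetUrysohnSpace X := ⟨fun A p hp => by
  by_cases h1 : p ∈ A
  · exact subset_seqClosure h1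
  obtain ⟨V, a, h2, h3⟩ := h A p hp h1
  exact ⟨a, fun k => (h2 k).2.2.1, fun W hW => (h3 W hW).mono fun k hk => hk (h2 k).2.2.2⟩⟩

theorem Key.pseudo [T2Space X] [CompactSpace X] (h : Key X) (S : Set X)
    (hS : ∀ f : S → ℝ, Continuous f → ∃ M : ℝ, ∀ x : S, |f x| ≤ M) : IsCompact S := by
  refine (isClosed_of_closure_subset fun p hp => by_contra fun h1 => ?_).isCompact
  obtain ⟨V, a, h2, h3⟩ := h S p hp h1
  let g : ℕ → S → ℝ := fun k => (Subtype.val ⁻¹' V k).indicator fun _ => k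
  have h4 : LocallyFinite fun k => support (g k) := fun x => by
    obtain ⟨N, h4, h5⟩ := away h3 (q := x.1) fun h => h1 (h ▸ x.2)
    refine ⟨_, continuous_subtype_val.continuousAt.preimage_mem_nhds h4, h5.subset ?_⟩
    rintro k ⟨y, h6, h7⟩
    exact ⟨y, support_indicator_subset (s := Subtype.val ⁻¹' V k) h6, h7⟩
  obtain ⟨M, hM⟩ := hS _ (continuous_finsum (fun k =>
    ((h2 k).1.preimage continuous_subtype_val).continuous_indicator continuous_const) h4)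
  obtain ⟨k, hk⟩ := exists_nat_gt M
  refine hk.not_ge (le_trans ?_ ((le_abs_self _).trans (hM ⟨a k, (h2 k).2.2.1⟩)))
  refine le_trans ?_ (single_le_finsum k (f := fun j => g j ⟨a k, (h2 k).2.2.1⟩)
    (h4.point_finite _) fun j => indicator_nonneg (fun _ _ => Nat.cast_nonneg j) _)
  exact (indicator_of_mem (s := Subtype.val ⁻¹' V k) (h2 k).2.2.2 fun _ => (k : ℝ)).ge

def WD (Z : Type) [TopologicalSpace Z] : Prop :=
  ∀ D : Set Z, D.Infinite → IsClosed D → IsDiscrete D → ∃ D' ⊆ D, D'.Infinite ∧ ∃ U : Z → Set Z,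
    (∀ d ∈ D', IsOpen (U d) ∧ d ∈ U d) ∧
      ∀ z, ∃ W ∈ 𝓝 z, {d ∈ D' | (U d ∩ W).Nonempty}.Subsingleton

theorem Key.wd [T2Space X] [CompactSpace X] (h : Key X) (Z : Set X) : WD Z := by
  intro D h1 h2 h3
  obtain ⟨p, -, hp⟩ := (h1.image Subtype.val_injective.injOn).exists_accPt_of_subset_isCompact
    isCompact_univ (subset_univ _)
  have hp' := mem_closure_iff_clusterPt.2 (accPt_principal_iff_clusterPt.1 hp)
  have hZ : p ∉ Z := fun hZ => by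
    have h4 := disjoint_principal_right.1 (isClosed_and_discrete_iff.1 ⟨h2, h3⟩ ⟨p, hZ⟩)
    obtain ⟨t, h5, h6⟩ := mem_nhdsWithin_iff_exists_mem_nhds_inter.1 h4
    obtain ⟨u, h7, h8⟩ := (mem_nhds_subtype _ _ _).1 h5
    obtain ⟨_, h9, ⟨y, h10, rfl⟩, h11⟩ := mem_closure_iff_nhds.1 hp' u h7
    exact h6 ⟨h8 h9, fun h => h11 (congrArg Subtype.val h)⟩ h10
  obtain ⟨V, a, h4, h5⟩ := h _ p hp' fun h => h.2 rfl
  obtain ⟨f, hf⟩ := MP_034e58.seq (α := ℕ) (fun n y => n ≤ y) (fun x y => Disjoint (V x) (V y))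
    fun n s hs => by
      obtain ⟨y, h6, h7⟩ := ((h5 _ ((biInter_mem hs).2 fun x _ =>
        (h4 x).1.compl.2.mem_nhds (h4 x).2.1)).and (eventually_ge_atTop n)).exists
      exact ⟨y, h7, fun x hx => disjoint_left.2 fun z h8 h9 => mem_iInter₂.1 (h6 h9) x hx h8⟩
  have h6 : ∀ m n, (V (f m) ∩ V (f n)).Nonempty → m = n := fun m n h => by
    rcases lt_trichotomy m n with h' | h' | h'
    · exact absurd h (not_nonempty_iff_eq_empty.2 ((hf n).2 m h').inter_eq)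
    · exact h'
    · exact absurd h (not_nonempty_iff_eq_empty.2 ((hf m).2 n h').symm.inter_eq)
  choose b hb using fun k => (h4 k).2.2.1.1
  have h7 : ∀ k, (b k).1 ∈ V k := fun k => (hb k).2 ▸ (h4 k).2.2.2
  refine ⟨range (b ∘ f), by rintro _ ⟨n, rfl⟩; exact (hb _).1,
    infinite_range_of_injective fun m n h => h6 m n ⟨_, h7 _, ?_⟩,
    fun d => ⋃ n ∈ {n | b (f n) = d}, Subtype.val ⁻¹' V (f n), ?_, fun z => ?_⟩
  · rw [show b (f m) = b (f n) from h]; exact h7 _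
  · rintro _ ⟨n, rfl⟩
    exact ⟨isOpen_biUnion fun m _ => (h4 _).1.2.preimage continuous_subtype_val, mem_biUnion rfl (h7 _)⟩
  have H : ∃ W ∈ 𝓝 z.1, {n | (V (f n) ∩ W).Nonempty}.Subsingleton := by
    by_cases h8 : ∃ n, z.1 ∈ V (f n)
    · obtain ⟨n, hn⟩ := h8
      exact ⟨_, (h4 _).1.2.mem_nhds hn, fun i hi j hj => (h6 i n hi).trans (h6 j n hj).symm⟩
    · obtain ⟨N, h9, h10⟩ := away (V := V ∘ f) (p := p) (q := z.1) (fun W hW =>
        (tendsto_atTop_mono (fun n => (hf n).1) tendsto_id).eventually (h5 W hW)) fun h => hZ (h ▸ z.2)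
      refine ⟨_, inter_mem h9 ((biInter_mem h10).2 fun n _ =>
        (h4 (f n)).1.compl.2.mem_nhds fun h => h8 ⟨n, h⟩), fun i ⟨x, h11, h12, h13⟩ => ?_⟩
      exact absurd h11 (mem_iInter₂.1 h13 i ⟨x, h11, h12⟩)
  obtain ⟨W, h8, h9⟩ := H
  refine ⟨_, continuous_subtype_val.continuousAt.preimage_mem_nhds h8, ?_⟩
  rintro d ⟨-, x, h10, h11⟩ e ⟨-, y, h12, h13⟩
  obtain ⟨i, rfl, h14⟩ := mem_iUnion₂.1 h10
  obtain ⟨j, rfl, h15⟩ := mem_iUnion₂.1 h12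
  rw [h9 (⟨_, h14, h11⟩ : (V (f i) ∩ W).Nonempty) (⟨_, h15, h13⟩ : (V (f j) ∩ W).Nonempty)]

end

theorem keyX : Key (OnePoint Y) := fun _ _ => key

open OnePoint

theorem scat (A : Set (OnePoint Y)) (hA : A.Nonempty) : ∃ x ∈ A, ∃ U, IsOpen U ∧ U ∩ A = {x} := by
  by_cases h : ∃ B : Y, ↑B ∈ A
  · obtain ⟨B, h1, h2⟩ := (InvImage.wf θ wellFounded_lt).has_min {B : Y | (B : OnePoint Y) ∈ A} h
    refine ⟨B, h1, _, isOpenMap_coe _ (open_In B), subset_antisymm ?_ ?_⟩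
    · rintro _ ⟨⟨C, h3, rfl⟩, h4⟩
      exact congrArg _ (h3.lt.resolve_right fun h5 => h2 C h4 h5.1)
    · rintro _ rfl
      exact ⟨⟨B, In.refl B, rfl⟩, h1⟩
  · have h1 : ∀ x ∈ A, x = ∞ := fun x hx => by
      induction x with
      | infty => rfl
      | coe x => exact absurd ⟨x, hx⟩ h
    obtain ⟨x, hx⟩ := hA
    exact ⟨x, hx, univ, isOpen_univ, by
      rw [univ_inter]; exact eq_singleton_iff_unique_mem.2 ⟨hx, fun y hy => (h1 y hy).trans (h1 x hx).symm⟩⟩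

theorem notbi : ∃ F : Ultrafilter (OnePoint Y), ↑F ≤ 𝓝 (∞ : OnePoint Y) ∧
    ∀ A : ℕ → Set (OnePoint Y), (∀ n, A n ∈ F) → ∃ W ∈ 𝓝 (∞ : OnePoint Y), ∀ n, ¬ A n ⊆ W := by
  have : Nonempty Y := ⟨⟨∅, countable_empty⟩⟩
  have h0 : (⨅ b : Y, 𝓟 ((↑) '' {e : Y | b.s ⊆ e.s} : Set (OnePoint Y))).NeBot :=
    iInf_neBot_of_directed (fun b c => ⟨⟨b.s ∪ c.s, b.cnt.union c.cnt⟩,
      principal_mono.2 (image_mono fun _ h => subset_union_left.trans h),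
      principal_mono.2 (image_mono fun _ h => subset_union_right.trans h)⟩)
      fun b => principal_neBot_iff.2 ⟨_, b, fun _ h => h, rfl⟩
  obtain ⟨F, hF⟩ := Ultrafilter.exists_le
    (⨅ b : Y, 𝓟 ((↑) '' {e : Y | b.s ⊆ e.s} : Set (OnePoint Y)))
  have h1 : ∀ b : Y, ((↑) '' {e : Y | b.s ⊆ e.s} : Set (OnePoint Y)) ∈ F := fun b =>
    le_principal_iff.1 (hF.trans (iInf_le _ b))
  refine ⟨F, ?_, fun A hA => ?_⟩
  · obtain ⟨x, -, hx⟩ := isCompact_iff_ultrafilter_le_nhds'.1 isCompact_univ F univ_mem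
    induction x with
    | infty => exact hx
    | coe B =>
      obtain ⟨γ, hγ⟩ := not_all B
      obtain ⟨_, ⟨C, h2, rfl⟩, D, h3, h4⟩ := F.nonempty_of_mem (inter_mem (h1 ⟨{γ}, countable_singleton γ⟩)
        (hx ((isOpenMap_coe _ (open_In B)).mem_nhds ⟨B, In.refl B, rfl⟩)))
      cases coe_injective h4
      exact absurd (h3.sub (h2 rfl)) hγ
  · obtain ⟨B, l, h2, h3⟩ := Lad_guess (fun n => (↑) ⁻¹' A n) fun n b => by
      obtain ⟨_, h2, C, h3, rfl⟩ := F.nonempty_of_mem (inter_mem (hA n) (h1 b))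
      exact ⟨C, h2, h3⟩
    refine ⟨((↑) '' {C | In B C})ᶜ, ((compact_In B).image continuous_coe).isClosed.isOpen_compl.mem_nhds
      infty_notMem_image_coe, fun n h => h (h3 n) ⟨_, ?_, rfl⟩⟩
    exact In.step B l n _ h2 (In.refl _) inter_subset_left

theorem notalpha : ∃ (S : Set (OnePoint Y)) (F : Set (Set S)),
    Maximal (fun G : Set (Set S) => (∀ A ∈ G, IsClosed A) ∧
      ∀ H : Finset (Set S), (↑H : Set (Set S)) ⊆ G → (⋂₀ (↑H : Set (Set S))).Nonempty) F ∧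
    (∀ H : Set (Set S), H ⊆ F → H.Countable → (⋂₀ H).Nonempty) ∧ ¬ (⋂₀ F).Nonempty := by
  classical
  let S : Set (OnePoint Y) := range ((↑) : Y → OnePoint Y)
  let j : Y ≃ₜ S := isOpenEmbedding_coe.isEmbedding.toHomeomorph
  let F : Set (Set S) := {A | IsClosed A ∧ ∀ b : Y, ∃ e : Y, j e ∈ A ∧ b.s ⊆ e.s}
  have h1 : ∀ H : Set (Set S), H ⊆ F → H.Countable → (⋂₀ H).Nonempty := fun H h h' => by
    rcases H.eq_empty_or_nonempty with rfl | h0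
    · exact ⟨j ⟨∅, countable_empty⟩, by simp⟩
    obtain ⟨A, rfl⟩ := h'.exists_eq_range h0
    obtain ⟨B, l, h2, h3⟩ := Lad_guess (fun n => j ⁻¹' A n.unpair.1) fun n => (h ⟨_, rfl⟩).2
    refine ⟨j B, ?_⟩
    rintro _ ⟨i, rfl⟩
    refine (h ⟨i, rfl⟩).1.mem_of_frequently_of_tendsto ?_ ((j.continuous.tendsto B).comp (Lad_tendsto h2))
    refine frequently_atTop.2 fun n => ⟨Nat.pair i n, Nat.right_le_pair i n, ?_⟩
    simpa using h3 (Nat.pair i n)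
  have h2 : ∀ b : Y, j.symm ⁻¹' {e | b.s ⊆ e.s} ∈ F := fun b =>
    ⟨(closed_cone _).preimage j.symm.continuous, fun c => ⟨⟨b.s ∪ c.s, b.cnt.union c.cnt⟩,
      by simp, subset_union_right⟩⟩
  refine ⟨S, F, ⟨⟨fun A h => h.1, fun H h => h1 _ h H.countable_toSet⟩, fun G hG h A hA =>
    ⟨hG.1 A hA, fun b => ?_⟩⟩, h1, ?_⟩
  · obtain ⟨x, hx⟩ := hG.2 {A, j.symm ⁻¹' {e | b.s ⊆ e.s}} (by
      rw [Finset.coe_pair]; exact pair_subset hA (h (h2 b)))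
    rw [Finset.coe_pair, sInter_pair] at hx
    exact ⟨j.symm x, by simpa using hx.1, hx.2⟩
  · rintro ⟨x, hx⟩
    obtain ⟨γ, hγ⟩ := not_all (j.symm x)
    exact hγ (hx _ (h2 ⟨{γ}, countable_singleton γ⟩) rfl)

end Pool.Agent.H.MP_3fab4a
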